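import Mathlib

/-!
# Three unit fractions: a divisor criterion and its consequences
-/

set_option autoImplicit false

namespace Pool.Agent.Helper33.SS

/-- `a / b` is a sum of three unit fractions -/
def Rep (a b : ℕ) : Prop :=
  ∃ x y z : ℕ, 0 < x ∧ 0 < y ∧ 0 < z ∧ (a : ℚ) / b = 1 / x + 1 / y + 1 / z

/-- the divisor criterion -/
theorem rep_of_dvd {a q c D E b : ℕ} (hc0 : 0 < c) (hc : a * c = q + 1) (hb : 0 < b)
    (hD : D ∣ b * c) (hE : E ∣ b * c) (h : q ∣ D + E) : Rep a b := by
  obtain ⟨k, hk⟩ := h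
  obtain ⟨u, hu⟩ := hD
  obtain ⟨v, hv⟩ := hE
  have hbc : 0 < b * c := Nat.mul_pos hb hc0
  have hD0 : 0 < D := Nat.pos_of_ne_zero fun h => by subst h; simp at hu; omega
  have hE0 : 0 < E := Nat.pos_of_ne_zero fun h => by subst h; simp at hv; omega
  have hu0 : 0 < u := Nat.pos_of_ne_zero fun h => by subst h; simp at hu; omega
  have hv0 : 0 < v := Nat.pos_of_ne_zero fun h => by subst h; simp at hv; omega
  have hk0 : 0 < k := Nat.pos_of_ne_zero fun h => by subst h; simp at hk; omega
  refine ⟨b * c, k * u, k * v, by positivity, by positivity, by positivity, ?_⟩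
  have hbQ : (b : ℚ) ≠ 0 := by positivity
  have hcQ : (c : ℚ) ≠ 0 := by positivity
  have hkQ : (k : ℚ) ≠ 0 := by positivity
  have huQ : (u : ℚ) ≠ 0 := by positivity
  have hvQ : (v : ℚ) ≠ 0 := by positivity
  have hcQ' : (a : ℚ) * c = q + 1 := by exact_mod_cast hc
  have hkQ' : (D : ℚ) + E = q * k := by exact_mod_cast hk
  have huQ' : (b : ℚ) * c = D * u := by exact_mod_cast hu
  have hvQ' : (b : ℚ) * c = E * v := by exact_mod_cast hv
  push_cast
  have e1 : (1 : ℚ) / (k * u) = D / (k * (b * c)) := by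
    rw [div_eq_div_iff (by positivity) (by positivity), huQ']
    ring
  have e2 : (1 : ℚ) / (k * v) = E / (k * (b * c)) := by
    rw [div_eq_div_iff (by positivity) (by positivity), hvQ']
    ring
  rw [e1, e2]
  have e3 : (1 : ℚ) / (b * c) + D / (k * (b * c)) + E / (k * (b * c)) =
      (k + (D + E)) / (k * (b * c)) := by
    field_simp
    ring
  rw [e3, hkQ', div_eq_div_iff hbQ (by positivity)]
  linear_combination ((k : ℚ) * b) * hcQ'

theorem rep_mul {a b m : ℕ} (hm : 0 < m) (h : Rep a b) : Rep a (b * m) := by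
  obtain ⟨x, y, z, hx, hy, hz, e⟩ := h
  refine ⟨x * m, y * m, z * m, by positivity, by positivity, by positivity, ?_⟩
  push_cast
  have hmQ : (m : ℚ) ≠ 0 := by positivity
  have hxQ : (x : ℚ) ≠ 0 := by positivity
  have hyQ : (y : ℚ) ≠ 0 := by positivity
  have hzQ : (z : ℚ) ≠ 0 := by positivity
  rw [← div_div, e]
  field_simp

/-- the products of the sublists -/
def sub {G : Type*} [CommGroup G] [DecidableEq G] : List G → Finset G
  | [] => {1}
  | u :: M => sub M ∪ (sub M).image (fun x => u * x)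

theorem one_mem_sub {G : Type*} [CommGroup G] [DecidableEq G] (M : List G) : 1 ∈ sub M := by
  induction M with
  | nil => exact Finset.mem_singleton_self 1
  | cons u M ih => exact Finset.mem_union_left _ ih

/-- if `t` is a power of each member of the list but not the product of a sublist then there are
many products of sublists -/
theorem length_lt_card {G : Type*} [CommGroup G] [DecidableEq G] {t : G} (M : List G)
    (hM : ∀ u ∈ M, ∃ s : ℕ, u ^ s = t) (ht : t ∉ sub M) : M.length + 1 ≤ (sub M).card := by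
  induction M with
  | nil => exact (Finset.card_singleton (1 : G)).ge
  | cons u M ih =>
    have ht' : t ∉ sub M := fun h => ht (Finset.mem_union_left _ h)
    have ih' := ih (fun v hv => hM v (List.mem_cons_of_mem u hv)) ht'
    have hss : sub M ⊆ sub (u :: M) := Finset.subset_union_left
    have hne : sub M ≠ sub (u :: M) := by
      intro h
      have hcl : ∀ x ∈ sub M, u * x ∈ sub M := by
        intro x hx
        rw [h]
        exact Finset.mem_union_right _ (Finset.mem_image_of_mem _ hx)
      have hpow : ∀ s : ℕ, u ^ s ∈ sub M := by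
        intro s
        induction s with
        | zero => rw [pow_zero]; exact one_mem_sub M
        | succ s ihs => rw [pow_succ']; exact hcl _ ihs
      obtain ⟨s, hs⟩ := hM u (by simp)
      exact ht' (hs ▸ hpow s)
    have := Finset.card_lt_card (Finset.ssubset_iff_subset_ne.2 ⟨hss, hne⟩)
    rw [List.length_cons]
    omega

/-- the count for a list of prime factors -/
theorem count_list {a q c b : ℕ} (hq : 0 < q) (hc : a * c = q + 1) (hb : 0 < b)
    (hno : ¬ Rep a b) (M : List ℕ) (hM : M.prod ∣ b * c) (h : ∀ p ∈ M, ∃ s, q ∣ p ^ s + 1) :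
    2 * (M.length + 1) ≤ Nat.totient q := by
  classical
  have hc0 : 0 < c := Nat.pos_of_ne_zero fun h => by subst h; simp at hc
  have : NeZero q := ⟨hq.ne'⟩
  -- units
  have hunit : ∀ p ∈ M, ∃ u : (ZMod q)ˣ, (u : ZMod q) = p ∧ ∃ s : ℕ, u ^ s = -1 := by
    intro p hp
    obtain ⟨s, hs⟩ := h p hp
    have hx : (p : ZMod q) ^ s = -1 := by
      have h1 : ((p ^ s + 1 : ℕ) : ZMod q) = 0 := (ZMod.natCast_eq_zero_iff _ _).2 hs
      push_cast at h1
      exact eq_neg_of_add_eq_zero_left h1
    rcases Nat.eq_zero_or_pos s with rfl | hs0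
    · rw [pow_zero] at hs
      exact absurd (rep_of_dvd hc0 hc hb (one_dvd _) (one_dvd _) hs) hno
    · have hu : IsUnit (p : ZMod q) := by
        have h2 : IsUnit ((p : ZMod q) ^ s) := by rw [hx]; exact isUnit_neg_one
        exact (isUnit_pow_iff hs0.ne').1 h2
      obtain ⟨u, hu⟩ := hu
      refine ⟨u, hu, s, ?_⟩
      rw [← Units.val_inj, Units.val_pow_eq_pow_val, hu, hx]
      rfl
  let U : ℕ → (ZMod q)ˣ := fun p => if h : ∃ u : (ZMod q)ˣ, (u : ZMod q) = p then h.choose else 1
  have hU : ∀ p ∈ M, ((U p : (ZMod q)ˣ) : ZMod q) = p := by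
    intro p hp
    have h1 : ∃ u : (ZMod q)ˣ, (u : ZMod q) = p := ⟨_, (hunit p hp).choose_spec.1⟩
    have h2 : U p = h1.choose := dif_pos h1
    rw [h2]
    exact h1.choose_spec
  -- the elements are residues of divisors
  have hdiv : ∀ N : List ℕ, (∀ p ∈ N, ((U p : (ZMod q)ˣ) : ZMod q) = p) → ∀ x ∈ sub (N.map U),
      ∃ D : ℕ, D ∣ N.prod ∧ (D : ZMod q) = x := by
    intro N
    induction N with
    | nil =>
      intro _ x hx
      refine ⟨1, one_dvd _, ?_⟩
      rw [Finset.mem_singleton.1 hx]
      simp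
    | cons p N ih =>
      intro hN x hx
      have ih' := ih fun p hp => hN p (List.mem_cons_of_mem _ hp)
      rcases Finset.mem_union.1 hx with hx | hx
      · obtain ⟨D, hD, e⟩ := ih' x hx
        exact ⟨D, by rw [List.prod_cons]; exact hD.mul_left p, e⟩
      · obtain ⟨y, hy, rfl⟩ := Finset.mem_image.1 hx
        obtain ⟨D, hD, e⟩ := ih' y hy
        refine ⟨p * D, by rw [List.prod_cons]; exact Nat.mul_dvd_mul_left p hD, ?_⟩
        rw [Nat.cast_mul, e, Units.val_mul, hN p (by simp)]
  have hdisj : ∀ x ∈ sub (M.map U), ∀ y ∈ sub (M.map U), x ≠ -y := by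
    intro x hx y hy hxy
    obtain ⟨D, hD, eD⟩ := hdiv M hU x hx
    obtain ⟨E, hE, eE⟩ := hdiv M hU y hy
    apply hno
    refine rep_of_dvd hc0 hc hb (hD.trans hM) (hE.trans hM) ?_
    rw [← ZMod.natCast_eq_zero_iff, Nat.cast_add, eD, eE, hxy, Units.val_neg]
    ring
  have hpow : ∀ u ∈ M.map U, ∃ s : ℕ, u ^ s = -1 := by
    intro u hu
    obtain ⟨p, hp, rfl⟩ := List.mem_map.1 hu
    obtain ⟨v, hv, s, hs⟩ := hunit p hp
    refine ⟨s, ?_⟩
    rw [show U p = v from Units.val_inj.1 ((hU p hp).trans hv.symm), hs]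
  have hcard := length_lt_card (t := (-1 : (ZMod q)ˣ)) (M.map U) hpow
    fun h => hdisj _ h _ (one_mem_sub _) rfl
  rw [List.length_map] at hcard
  have himg : ((sub (M.map U)).image fun x => -x).card = (sub (M.map U)).card :=
    Finset.card_image_of_injective _ neg_injective
  have hdis : Disjoint (sub (M.map U)) ((sub (M.map U)).image fun x => -x) := by
    rw [Finset.disjoint_left]
    intro x hx hx'
    obtain ⟨y, hy, hyx⟩ := Finset.mem_image.1 hx'
    exact hdisj x hx y hy hyx.symm
  have htot := Finset.card_le_univ (sub (M.map U) ∪ (sub (M.map U)).image fun x => -x)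
  rw [Finset.card_union_of_disjoint hdis, himg, ZMod.card_units_eq_totient] at htot
  omega

end Pool.Agent.Helper33.SS
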