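import Pool.Agent.Helper33.SS.Core

/-!
# Three unit fractions: the prime factors of the exceptional denominators
-/

set_option autoImplicit false

namespace Pool.Agent.Helper33.SS

/-- Euler's criterion -/
theorem dvd_of_not_square {q p : ℕ} (hq : q.Prime) (h : ¬ IsSquare (p : ZMod q)) :
    q ∣ p ^ (q / 2) + 1 := by
  have : Fact q.Prime := ⟨hq⟩
  have hp : (p : ZMod q) ≠ 0 := by
    intro h0
    rw [h0] at h
    exact h ⟨0, by ring⟩
  rcases ZMod.pow_div_two_eq_neg_one_or_one q hp with h1 | h1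
  · exact absurd ((ZMod.euler_criterion q hp).2 h1) h
  · rw [← ZMod.natCast_eq_zero_iff]
    push_cast
    rw [h1]
    ring

/-- for a prime `p` that does not divide `a` there is a prime `q` with `a ∣ q + 1` such that `- 1`
is a power of `p` modulo `q` -/
theorem exists_q {a p : ℕ} (ha : 0 < a) (hp : p.Prime) (hpa : ¬ p ∣ a) :
    ∃ q, 0 < q ∧ a ∣ q + 1 ∧ ∃ s, q ∣ p ^ s + 1 := by
  rcases hp.eq_two_or_odd with rfl | hodd
  · have hco : Nat.Coprime 8 a := by
      rw [show (8 : ℕ) = 2 ^ 3 by norm_num]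
      exact Nat.Coprime.pow_left 3 ((Nat.Prime.coprime_iff_not_dvd Nat.prime_two).2 hpa)
    obtain ⟨x, hx1, hx2⟩ := Nat.chineseRemainder hco 3 (a * 1 - 1 + a)
    have hxa : a ∣ x + 1 := by
      have h1 : x + 1 ≡ a * 1 - 1 + a + 1 [MOD a] := hx2.add_right 1
      have h2 : a * 1 - 1 + a + 1 = 2 * a := by omega
      rw [h2] at h1
      exact (Nat.modEq_zero_iff_dvd).1 (h1.trans ((Nat.modEq_zero_iff_dvd).2 ⟨2, by ring⟩))
    have hxc : Nat.Coprime x (8 * a) := by
      apply Nat.Coprime.mul_right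
      · have h : Nat.gcd x 8 = Nat.gcd 3 8 := Nat.ModEq.gcd_eq hx1
        unfold Nat.Coprime
        rw [h]
        norm_num
      · have : Nat.Coprime x (x + 1) := by simp
        exact this.coprime_dvd_right hxa
    obtain ⟨q, _, hqp, hqx⟩ := Nat.forall_exists_prime_gt_and_modEq 8 (q := 8 * a) (by omega) hxc
    have hq8 : q % 8 = 3 := by
      have : q ≡ 3 [MOD 8] := (hqx.of_mul_right a).trans hx1
      exact this
    have hqa : a ∣ q + 1 := by
      have h1 : q + 1 ≡ x + 1 [MOD a] := (hqx.of_mul_left 8).add_right 1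
      exact (Nat.modEq_zero_iff_dvd).1 (h1.trans ((Nat.modEq_zero_iff_dvd).2 hxa))
    have : Fact q.Prime := ⟨hqp⟩
    refine ⟨q, hqp.pos, hqa, q / 2, dvd_of_not_square hqp ?_⟩
    have h3 := ZMod.exists_sq_eq_two_iff (p := q) (by omega)
    push_cast
    rw [h3]
    omega
  · have : Fact p.Prime := ⟨hp⟩
    have hco : Nat.Coprime (4 * a) p := by
      rw [Nat.coprime_comm, Nat.Prime.coprime_iff_not_dvd hp]
      intro h
      rcases (Nat.Prime.dvd_mul hp).1 h with h | h
      · have h5 : p ∣ 2 ^ 2 := by norm_num; exact h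
        have h6 := (Nat.prime_dvd_prime_iff_eq hp Nat.prime_two).1 (hp.dvd_of_dvd_pow h5)
        omega
      · exact hpa h
    -- the residue modulo `p`
    obtain ⟨n, hn0, hn⟩ : ∃ n : ℕ, (n : ZMod p) ≠ 0 ∧
        ((p % 4 = 1 ∧ ¬ IsSquare (n : ZMod p)) ∨ (p % 4 = 3 ∧ IsSquare (n : ZMod p))) := by
      rcases (show p % 4 = 1 ∨ p % 4 = 3 by omega) with h | h
      · obtain ⟨y, hy⟩ := FiniteField.exists_nonsquare (F := ZMod p) (by
          rw [ZMod.ringChar_zmod_n]
          omega)
        refine ⟨y.val, ?_, Or.inl ⟨h, ?_⟩⟩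
        · rw [ZMod.natCast_zmod_val]
          rintro rfl
          exact hy ⟨0, by ring⟩
        · rwa [ZMod.natCast_zmod_val]
      · refine ⟨1, by simp, Or.inr ⟨h, ⟨1, by simp⟩⟩⟩
    obtain ⟨x, hx1, hx2⟩ := Nat.chineseRemainder hco (4 * a - 1) n
    have hx4 : 4 * a ∣ x + 1 := by
      have h1 : x + 1 ≡ 4 * a - 1 + 1 [MOD 4 * a] := hx1.add_right 1
      have h2 : 4 * a - 1 + 1 = 4 * a := by omega
      rw [h2] at h1
      exact (Nat.modEq_zero_iff_dvd).1 (h1.trans ((Nat.modEq_zero_iff_dvd).2 (dvd_refl _)))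
    have hxc : Nat.Coprime x (4 * a * p) := by
      apply Nat.Coprime.mul_right
      · have : Nat.Coprime x (x + 1) := by simp
        exact this.coprime_dvd_right hx4
      · rw [Nat.coprime_comm, Nat.Prime.coprime_iff_not_dvd hp]
        intro h
        apply hn0
        rw [← (ZMod.natCast_eq_natCast_iff _ _ _).2 hx2]
        exact (ZMod.natCast_eq_zero_iff _ _).2 h
    obtain ⟨q, hq1, hqp, hqx⟩ := Nat.forall_exists_prime_gt_and_modEq (p + 4) (q := 4 * a * p)
      (Nat.mul_ne_zero (by omega) hp.ne_zero) hxc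
    have hqa4 : 4 * a ∣ q + 1 := by
      have h1 : q + 1 ≡ x + 1 [MOD 4 * a] := (hqx.of_mul_right p).add_right 1
      exact (Nat.modEq_zero_iff_dvd).1 (h1.trans ((Nat.modEq_zero_iff_dvd).2 hx4))
    have hq4 : q % 4 = 3 := by
      have : 4 ∣ q + 1 := (Dvd.intro a rfl).trans hqa4
      omega
    have hqn : (q : ZMod p) = n := by
      rw [ZMod.natCast_eq_natCast_iff]
      exact (hqx.of_mul_left (4 * a)).trans hx2
    have : Fact q.Prime := ⟨hqp⟩
    refine ⟨q, hqp.pos, (Dvd.intro_left 4 rfl).trans hqa4, q / 2, dvd_of_not_square hqp ?_⟩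
    rcases hn with ⟨h1, h2⟩ | ⟨h1, h2⟩
    · rw [← ZMod.exists_sq_eq_prime_iff_of_mod_four_eq_one h1 (by omega), hqn]
      exact h2
    · rw [← ZMod.exists_sq_eq_prime_iff_of_mod_four_eq_three h1 hq4 (by omega), hqn]
      exact h2

/-- denominators divisible by a high power of a fixed prime -/
theorem prime_power {a p : ℕ} (ha : 0 < a) (hp : p.Prime) :
    ∃ E : ℕ, ∀ b : ℕ, 0 < b → p ^ E ∣ b → Rep a b := by
  obtain ⟨v, a', hpa, rfl⟩ := Nat.exists_eq_pow_mul_and_not_dvd ha.ne' p hp.ne_one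
  have ha' : 0 < a' := Nat.pos_of_mul_pos_left ha |> fun h => by
    rcases Nat.eq_zero_or_pos a' with h0 | h0
    · subst h0; simp at ha
    · exact h0
  obtain ⟨q, hq, hqa, s, hs⟩ := exists_q ha' hp hpa
  refine ⟨v + s, ?_⟩
  rintro _ hb ⟨m, rfl⟩
  have hm : 0 < m := Nat.pos_of_ne_zero fun h => by subst h; simp at hb
  have hpp : 0 < p := hp.pos
  obtain ⟨c, hc⟩ := hqa
  have hc0 : 0 < c := Nat.pos_of_ne_zero fun h => by subst h; simp at hc
  have h1 : Rep a' (p ^ s * m) :=
    rep_of_dvd hc0 hc.symm (by positivity) (by rw [mul_assoc]; exact Dvd.intro _ rfl)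
      (one_dvd _) hs
  obtain ⟨x, y, z, hx, hy, hz, e⟩ := h1
  refine ⟨x, y, z, hx, hy, hz, ?_⟩
  rw [← e]
  push_cast
  have hpQ : (p : ℚ) ≠ 0 := by positivity
  have hmQ : (m : ℚ) ≠ 0 := by positivity
  rw [div_eq_div_iff (by positivity) (by positivity), pow_add]
  ring

open Classical in
theorem count_le {a q b : ℕ} (hq : 0 < q) (haq : a ∣ q + 1) (hb : 0 < b)
    (hno : ¬ Rep a b) (L : List ℕ) (hL : L.prod ∣ b) :
    (L.filter fun p => ∃ s, q ∣ p ^ s + 1).length ≤ q * q := by
  obtain ⟨c, hc⟩ := haq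
  have h := count_list hq hc.symm hb hno (L.filter fun p => ∃ s, q ∣ p ^ s + 1)
    (((List.Sublist.prod_dvd_prod List.filter_sublist).trans hL).mul_right c)
    (fun p hp => by simpa using (List.mem_filter.1 hp).2)
  have h1 := Nat.totient_le q
  have h2 : q ≤ q * q := Nat.le_mul_of_pos_left q hq
  omega

/-- subgroups of large index -/
theorem exists_sub {a : ℕ} (ha : 0 < a) (k : ℕ) :
    ∃ (N : ℕ) (_ : NeZero N) (R : Subgroup (ZMod N)ˣ), 2 ^ k ≤ R.index ∧
      ∀ (p : ℕ) (u : (ZMod N)ˣ), (u : ZMod N) = p → u ∉ R →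
        ∃ q, q ∣ N ∧ 0 < q ∧ a ∣ q + 1 ∧ ∃ s, q ∣ p ^ s + 1 := by
  induction k with
  | zero => exact ⟨1, inferInstance, ⊤, by simp, fun p u _ h => absurd (Subgroup.mem_top u) h⟩
  | succ k ih =>
    obtain ⟨N, hN, R, hR, hprop⟩ := ih
    have hco : Nat.Coprime (4 * a - 1) (4 * a) := by
      have h : Nat.Coprime (4 * a - 1) (4 * a - 1 + 1) := by simp
      rwa [show 4 * a - 1 + 1 = 4 * a by omega] at h
    obtain ⟨q, hqN, hqp, hqa⟩ := Nat.forall_exists_prime_gt_and_modEq N (q := 4 * a)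
      (by omega) hco
    have hq4 : 4 * a ∣ q + 1 := by
      have h1 : q + 1 ≡ 4 * a - 1 + 1 [MOD 4 * a] := hqa.add_right 1
      have h2 : 4 * a - 1 + 1 = 4 * a := by omega
      rw [h2] at h1
      exact (Nat.modEq_zero_iff_dvd).1 (h1.trans ((Nat.modEq_zero_iff_dvd).2 (dvd_refl _)))
    have hq3 : q % 4 = 3 := by
      have : 4 ∣ q + 1 := (Dvd.intro a rfl).trans hq4
      omega
    have : Fact q.Prime := ⟨hqp⟩
    have hNq : Nat.Coprime N q := by
      rw [Nat.coprime_comm, Nat.Prime.coprime_iff_not_dvd hqp]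
      intro h
      have := Nat.le_of_dvd (Nat.pos_of_neZero N) h
      omega
    let e : (ZMod (N * q))ˣ ≃* (ZMod N)ˣ × (ZMod q)ˣ :=
      (Units.mapEquiv (ZMod.chineseRemainder hNq).toMulEquiv).trans MulEquiv.prodUnits
    let Sq : Subgroup (ZMod q)ˣ := (powMonoidHom (q / 2) : (ZMod q)ˣ →* (ZMod q)ˣ).ker
    have hSq : 2 ≤ Sq.index := by
      apply Subgroup.one_lt_index_of_ne_top
      intro htop
      have h1 : (-1 : (ZMod q)ˣ) ∈ Sq := by rw [htop]; exact Subgroup.mem_top _
      rw [MonoidHom.mem_ker] at h1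
      have h2 : ((-1 : (ZMod q)ˣ) : (ZMod q)ˣ) ^ (q / 2) = 1 := h1
      have h3 : Odd (q / 2) := by rw [Nat.odd_iff]; omega
      rw [h3.neg_one_pow] at h2
      have h4 : (-1 : ZMod q) = 1 := by
        have := congrArg (Units.val) h2
        simpa using this
      have h5 : Fact (2 < q) := ⟨by omega⟩
      exact ZMod.neg_one_ne_one h4
    refine ⟨N * q, ⟨Nat.mul_ne_zero (NeZero.ne N) hqp.ne_zero⟩, (R.prod Sq).comap e.toMonoidHom,
      ?_, ?_⟩
    · rw [Subgroup.index_comap_of_surjective _ e.surjective, Subgroup.index_prod, pow_succ]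
      exact Nat.mul_le_mul hR hSq
    · intro p u hu hnot
      rw [Subgroup.mem_comap, Subgroup.mem_prod] at hnot
      have h1 : (((e u).1 : (ZMod N)ˣ) : ZMod N) = p := by
        show (ZMod.chineseRemainder hNq (u : ZMod (N * q))).1 = p
        rw [hu, map_natCast]
        rfl
      have h2 : (((e u).2 : (ZMod q)ˣ) : ZMod q) = p := by
        show (ZMod.chineseRemainder hNq (u : ZMod (N * q))).2 = p
        rw [hu, map_natCast]
        rfl
      by_cases hc : (e u).1 ∈ R
      · have h3 : (e u).2 ∉ Sq := fun h => hnot ⟨hc, h⟩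
        refine ⟨q, Dvd.intro_left N rfl, hqp.pos, (Dvd.intro_left 4 rfl).trans hq4, q / 2, ?_⟩
        have h4 : ((p : ZMod q)) ≠ 0 := by
          rw [← h2]
          exact Units.ne_zero _
        have h5 : (p : ZMod q) ^ (q / 2) ≠ 1 := by
          intro h
          apply h3
          rw [MonoidHom.mem_ker]
          show (e u).2 ^ (q / 2) = 1
          rw [← Units.val_inj, Units.val_pow_eq_pow_val, h2, h]
          rfl
        rcases ZMod.pow_div_two_eq_neg_one_or_one q h4 with h6 | h6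
        · exact absurd h6 h5
        · rw [← ZMod.natCast_eq_zero_iff]
          push_cast
          rw [h6]
          ring
      · obtain ⟨q', hq'N, h⟩ := hprop p (e u).1 h1 hc
        exact ⟨q', hq'N.trans (Dvd.intro q rfl), h⟩

/-- counting with several types -/
theorem length_le {A B : Finset ℕ} (P : ℕ → ℕ → Prop) [∀ q, DecidablePred (P q)] :
    ∀ L : List ℕ, (∀ p ∈ L, p ∈ A ∨ ∃ q ∈ B, P q p) →
      L.length ≤ ∑ p ∈ A, L.count p + ∑ q ∈ B, (L.filter fun p => P q p).length := by
  intro L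
  induction L with
  | nil => intro _; simp
  | cons x L ih =>
    intro h
    have ih' := ih fun p hp => h p (by simp [hp])
    have h1 : ∀ p, (x :: L).count p = L.count p + if x = p then 1 else 0 := by
      intro p
      rw [List.count_cons]
      simp
    have h2 : ∀ q, ((x :: L).filter fun p => P q p).length =
        (L.filter fun p => P q p).length + if P q x then 1 else 0 := by
      intro q
      rw [List.filter_cons]
      by_cases hq : P q x
      · simp [hq]
      · simp [hq]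
    simp only [h1, h2, Finset.sum_add_distrib, List.length_cons]
    have h3 : 1 ≤ (∑ p ∈ A, if x = p then 1 else 0) + ∑ q ∈ B, if P q x then 1 else 0 := by
      rcases h x (by simp) with hx | ⟨q, hq, hx⟩
      · rw [Finset.sum_ite_eq, if_pos hx]
        omega
      · have : 1 ≤ ∑ q ∈ B, if P q x then 1 else 0 := by
          have := Finset.single_le_sum (f := fun q => if P q x then 1 else 0)
            (fun _ _ => Nat.zero_le _) hq
          simpa [hx] using this
        omega
    omega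

theorem main (a : ℕ) (ha : 0 < a) (k : ℕ) (S : Finset ℕ) (hS : ∀ p ∈ S, p.Prime) :
    ∃ (Q : ℕ) (_ : NeZero Q) (R : Subgroup (ZMod Q)ˣ) (C : ℕ), k ≤ R.index ∧ (∀ p ∈ S, p ∣ Q) ∧
      ∀ L : List ℕ, C < L.length →
        (∀ p ∈ L, p.Prime ∧ ∀ u ∈ R, (u : ZMod Q) ≠ (p : ZMod Q)) →
        ∀ b : ℕ, 0 < b → L.prod ∣ b → Rep a b := by
  classical
  obtain ⟨N, hN, R, hR, hprop⟩ := exists_sub ha k
  have hSprod : (∏ p ∈ S, p) ≠ 0 := Finset.prod_ne_zero_iff.2 fun p hp => (hS p hp).ne_zero
  have hQ : NeZero (N * ∏ p ∈ S, p) := ⟨Nat.mul_ne_zero (NeZero.ne N) hSprod⟩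
  set Q := N * ∏ p ∈ S, p with hQdef
  have hNQ : N ∣ Q := Dvd.intro _ rfl
  have hpp : ∀ p : ℕ, ∃ E : ℕ, p.Prime → ∀ b : ℕ, 0 < b → p ^ E ∣ b → Rep a b := by
    intro p
    by_cases hp : p.Prime
    · obtain ⟨E, hE⟩ := prime_power ha hp
      exact ⟨E, fun _ => hE⟩
    · exact ⟨0, fun h => absurd h hp⟩
  choose E hE using hpp
  refine ⟨Q, hQ, R.comap (ZMod.unitsMap hNQ),
    ∑ p ∈ Q.primeFactors, E p + ∑ q ∈ N.divisors, q * q, ?_, ?_, ?_⟩
  · rw [Subgroup.index_comap_of_surjective _ (ZMod.unitsMap_surjective hNQ)]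
    exact (Nat.lt_two_pow_self).le.trans hR
  · intro p hp
    exact (Finset.dvd_prod_of_mem (fun p => p) hp).trans (Dvd.intro_left N rfl)
  · intro L hL hout b hb hLb
    by_contra hno
    let P : ℕ → ℕ → Prop := fun q p => 0 < q ∧ a ∣ q + 1 ∧ ∃ s, q ∣ p ^ s + 1
    have hcount := length_le (A := Q.primeFactors) (B := N.divisors) P L (by
      intro p hp
      obtain ⟨hpp, hpR⟩ := hout p hp
      by_cases hpQ : p ∣ Q
      · left
        exact Nat.mem_primeFactors.2 ⟨hpp, hpQ, NeZero.ne Q⟩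
      · right
        have hco : Nat.Coprime p Q := (Nat.Prime.coprime_iff_not_dvd hpp).2 hpQ
        have hcoN : Nat.Coprime p N := hco.coprime_dvd_right hNQ
        have hu : ZMod.unitOfCoprime p hco ∉ R.comap (ZMod.unitsMap hNQ) := by
          intro h
          exact hpR _ h (ZMod.coe_unitOfCoprime p hco)
        rw [Subgroup.mem_comap] at hu
        have hval : ((ZMod.unitsMap hNQ (ZMod.unitOfCoprime p hco) : (ZMod N)ˣ) : ZMod N) = p := by
          rw [ZMod.unitsMap_def, Units.coe_map, MonoidHom.coe_coe, ZMod.coe_unitOfCoprime,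
            map_natCast]
        obtain ⟨q, hqN, hq0, hqa, hs⟩ := hprop p _ hval hu
        exact ⟨q, Nat.mem_divisors.2 ⟨hqN, NeZero.ne N⟩, hq0, hqa, hs⟩)
    have h1 : ∑ p ∈ Q.primeFactors, L.count p ≤ ∑ p ∈ Q.primeFactors, E p := by
      apply Finset.sum_le_sum
      intro p hp
      by_contra hlt
      push Not at hlt
      apply hno
      apply hE p (Nat.prime_of_mem_primeFactors hp) b hb
      have h2 : List.Sublist (List.replicate (E p) p) L := List.replicate_sublist_iff.2 hlt.le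
      have h3 := (List.Sublist.prod_dvd_prod h2).trans hLb
      rwa [List.prod_replicate] at h3
    have h2 : ∑ q ∈ N.divisors, (L.filter fun p => P q p).length ≤ ∑ q ∈ N.divisors, q * q := by
      apply Finset.sum_le_sum
      intro q hq
      by_cases hqa : 0 < q ∧ a ∣ q + 1
      · have := count_le hqa.1 hqa.2 hb hno L hLb
        have h3 : (L.filter fun p => P q p) = L.filter fun p => ∃ s, q ∣ p ^ s + 1 := by
          apply List.filter_congr
          intro p _
          simp only [P, hqa.1, hqa.2, true_and]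
        rw [h3]
        exact this
      · have h3 : (L.filter fun p => P q p) = [] := by
          rw [List.filter_eq_nil_iff]
          intro p _
          simp only [P, decide_eq_true_eq]
          rintro ⟨h4, h5, _⟩
          exact hqa ⟨h4, h5⟩
        rw [h3]
        exact Nat.zero_le _
    omega

end Pool.Agent.Helper33.SS
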